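import Mathlib

namespace Pool.Agent.Results.MP_73fdb2_co.No

open Set Complex

variable {V : Type}

/-- A closed circular arc centred at the origin, shorter than the full circle. -/
def ClosedArc (S : Set ℂ) : Prop :=
  ∃ r > 0, ∃ a b : ℝ, a < b ∧ b < a + 2 * Real.pi ∧ S = circleMap 0 r '' Icc a b

/-- A nonempty connected subset of a circle centred at the origin. -/
def AnyArc (S : Set ℂ) : Prop := IsConnected S ∧ ∃ r > 0, S ⊆ Metric.sphere 0 r

/-- A radial segment joins the arcs of `u` and `v` and meets at most `k` further arcs. -/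
def Sees (arc : V → Set ℂ) (k : ℕ) (u v : V) : Prop :=
  u ≠ v ∧ ∃ p ∈ arc u, ∃ q ∈ arc v, Collinear ℝ {0, p, q} ∧
    {w | w ≠ u ∧ w ≠ v ∧ (segment ℝ p q ∩ arc w).Nonempty}.ncard ≤ k

def Vis (Arc : Set ℂ → Prop) (k : ℕ) (G : SimpleGraph V) : Prop :=
  ∃ arc : V → Set ℂ, (∀ v, Arc (arc v)) ∧ (Pairwise fun u v => Disjoint (arc u) (arc v)) ∧
    ∀ u v, G.Adj u v ↔ Sees arc k u v

def Bt (J : V → Set ℝ) (h : V → ℝ) (x : ℝ) (u v : V) : Set V :=
  {w | w ≠ u ∧ w ≠ v ∧ x ∈ J w ∧ h w ∈ uIcc (h u) (h v)}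

def BS (J : V → Set ℝ) (h : V → ℝ) (k : ℕ) (u v : V) : Prop :=
  u ≠ v ∧ ∃ x ∈ J u, x ∈ J v ∧ (Bt J h x u v).ncard ≤ k

lemma tr {e : ℝ → ℂ} {J : V → Set ℝ} {h : V → ℝ} (h0 : ∀ v, h v ≠ 0)
    (hI : ∀ u v, ∀ x ∈ J u, ∀ y ∈ J v, ∀ s t : ℝ, s • e x = t • e y → s ≠ 0 → x = y ∧ s = t)
    (k : ℕ) (u v : V) : Sees (fun v => (fun x => h v • e x) '' J v) k u v ↔ BS J h k u v := by
  have E : ∀ x ∈ J u, {w | w ≠ u ∧ w ≠ v ∧ (segment ℝ (h u • e x) (h v • e x) ∩
      (fun x => h w • e x) '' J w).Nonempty} = Bt J h x u v := fun x hx => by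
    ext w
    refine and_congr_right fun _ => and_congr_right fun _ => ⟨?_, ?_⟩
    · rintro ⟨_, ⟨a, b, ha, hb, ab, rfl⟩, y, hy, e⟩
      rw [smul_smul, smul_smul, ← add_smul] at e
      obtain ⟨rfl, e'⟩ := hI _ _ _ hy _ hx _ _ e (h0 w)
      exact ⟨hy, segment_eq_uIcc (h u) (h v) ▸ ⟨a, b, ha, hb, ab, e'.symm⟩⟩
    · rw [← segment_eq_uIcc]
      rintro ⟨hw, a, b, ha, hb, ab, e⟩
      exact ⟨_, ⟨a, b, ha, hb, ab, by rw [← e, smul_smul, smul_smul, ← add_smul]; rfl⟩, x, hw, rfl⟩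
  refine and_congr_right fun _ => ⟨?_, ?_⟩
  · rintro ⟨_, ⟨x, hx, rfl⟩, _, ⟨y, hy, rfl⟩, c, m⟩
    obtain ⟨d, hd⟩ := (collinear_iff_of_mem (p₀ := 0) (by simp)).1 c
    obtain ⟨s, hs⟩ := hd (h u • e x) (by simp)
    obtain ⟨t, ht⟩ := hd (h v • e y) (by simp)
    rw [vadd_eq_add, add_zero] at hs ht
    obtain ⟨rfl, -⟩ := hI _ _ _ hx _ hy (t * h u) (s * h v) (by
      rw [mul_smul, mul_smul, hs, ht, smul_comm]) (mul_ne_zero (by
        rintro rfl
        exact h0 v (hI _ _ _ hy _ hy _ 0 (by simpa using ht) (h0 v)).2) (h0 u))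
    exact ⟨x, hx, hy, E x hx ▸ m⟩
  · rintro ⟨x, hx, hy, m⟩
    refine ⟨_, ⟨x, hx, rfl⟩, _, ⟨x, hy, rfl⟩, (collinear_iff_of_mem (p₀ := 0) (by simp)).2
      ⟨e x, ?_⟩, (E x hx).symm ▸ m⟩
    simp only [mem_insert_iff, mem_singleton_iff, forall_eq_or_imp, forall_eq]
    exact ⟨⟨0, by simp⟩, ⟨h u, by simp⟩, h v, by simp⟩

lemma near (F : Set (V × ℝ)) (hF : F.Finite) (hd : ∀ w w' t, (w, t) ∈ F → (w', t) ∈ F → w = w')
    {u v : V} (s : ℝ) {t : ℝ} (huv : v ≠ u) (hv : (v, t) ∈ F) : ∃ w t', (w, t') ∈ F ∧ w ≠ u ∧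
      t' ∈ uIcc s t ∧ ∀ w' t'', (w', t'') ∈ F → t'' ∈ uIcc s t' → w' = u ∨ w' = w := by
  obtain ⟨⟨w, t'⟩, ⟨a, b, c⟩, m⟩ := exists_min_image {y ∈ F | y.1 ≠ u ∧ y.2 ∈ uIcc s t}
    (fun y => |y.2 - s|) (hF.subset fun _ e => e.1) ⟨_, hv, huv, right_mem_uIcc⟩
  refine ⟨w, t', a, b, c, fun w' t'' d e => or_iff_not_imp_left.2 fun f => ?_⟩
  have := m _ ⟨d, f, uIcc_subset_uIcc_left c e⟩
  obtain rfl : t'' = t' := by
    simp only at this
    rw [mem_uIcc] at e
    cases abs_cases (t' - s) <;> cases abs_cases (t'' - s) <;> cases e <;> linarith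
  exact hd _ _ _ d a

structure Bars (J : V → Set ℝ) (h : V → ℝ) (k : ℕ) (G : SimpleGraph V) : Prop where
  oc : ∀ v, (J v).OrdConnected
  ne : ∀ u v x, x ∈ J u → x ∈ J v → h u = h v → u = v
  adj : ∀ u v, G.Adj u v ↔ BS J h k u v

lemma cut [Finite V] {k : ℕ} {G : SimpleGraph V} (H : Vis AnyArc k G) (z : V)
    (hz : ∀ v, ¬ G.Adj z v) : ∃ J h, Bars J h k G ∧ J z = ∅ := by
  classical
  obtain ⟨arc, A, D, H⟩ := H
  choose C r r0 hr using A
  have hr : ∀ v, ∀ p ∈ arc v, ‖p‖ = r v := fun v p e => by simpa using hr v e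
  have p0 : ∀ v, ∀ p ∈ arc v, p ≠ 0 := fun v p e k => by
    have := hr v p e
    rw [k, norm_zero] at this
    exact (r0 v).ne this
  have iso : ∀ p ∈ arc z, ∀ v ≠ z, ∀ t : ℝ, t • p ∉ arc v := fun p hp v vz t ht => by
    obtain ⟨w, t', a, b, -, c⟩ := near {y | y.2 • p ∈ arc y.1} (((finite_univ.prod
      ((finite_range fun v => r v / ‖p‖).union (finite_range fun v => -(r v / ‖p‖))))).subset
      fun y e => ⟨trivial, by
        have := hr _ _ e
        rw [norm_smul, ← eq_div_iff (norm_ne_zero_iff.2 (p0 _ _ hp))] at this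
        exact (eq_or_eq_neg_of_abs_eq this).imp (fun e => ⟨_, e.symm⟩) fun e => ⟨_, e.symm⟩⟩)
      (fun w w' t a b => by_contra fun e => disjoint_left.1 (D e) a b) 1 vz ht
    refine hz w ((H _ _).2 ⟨b.symm, p, hp, _, a, (collinear_iff_of_mem (p₀ := 0) (by simp)).2
      ⟨p, ?_⟩, ((ncard_eq_zero (toFinite _)).2 (eq_empty_of_forall_notMem ?_)).trans_le k.zero_le⟩)
    · simp only [mem_insert_iff, mem_singleton_iff, forall_eq_or_imp, forall_eq]
      exact ⟨⟨0, by simp⟩, ⟨1, by simp⟩, t', by simp⟩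
    rintro w' ⟨d, e, _, ⟨α, β, ha, hb, ab, rfl⟩, f⟩
    refine (c w' (α * 1 + β * t') ?_ (segment_eq_uIcc 1 t' ▸ ⟨α, β, ha, hb, ab, rfl⟩)).elim d e
    show (α * 1 + β * t') • p ∈ arc w'
    rwa [add_smul, mul_one, mul_smul]
  obtain ⟨o, ho⟩ := (C z).1
  have o0 := p0 _ _ ho
  have im : ∀ v ≠ z, ∀ p ∈ arc v, (p / o).im ≠ 0 := fun v vz p hp e => iso o ho v vz (p / o).re (by
    rwa [real_smul, (Complex.ext rfl e.symm : ((p / o).re : ℂ) = p / o), div_mul_cancel₀ _ o0])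
  set f := fun p : ℂ => (p / o).re / (p / o).im with hf
  set n := fun x : ℝ => ‖o * (x + I)‖ with hn
  have n0 : ∀ x, 0 < n x := fun x => norm_pos_iff.2 (mul_ne_zero o0 fun e => by
    simpa using congrArg Complex.im e)
  have fp : ∀ v ≠ z, ∀ p ∈ arc v, (p / o).im • (o * (f p + I)) = p := fun v vz p hp => by
    have := im v vz p hp
    rw [real_smul, mul_left_comm, mul_comm, ← eq_div_iff o0]
    refine Complex.ext ?_ ?_ <;> simp only [hf, mul_re, mul_im, add_re, add_im, ofReal_re,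
      ofReal_im, I_re, I_im] <;> field_simp <;> ring
  have fc : ∀ v ≠ z, ContinuousOn f (arc v) := fun v vz =>
    ContinuousOn.div (by fun_prop) (by fun_prop) (im v vz)
  have : ∀ v, ∃ c : ℝ, c ≠ 0 ∧ (v ≠ z → ∀ p ∈ arc v, (p / o).im * n (f p) = c) := fun v => by
    by_cases vz : v = z
    · exact ⟨1, one_ne_zero, fun e => (e vz).elim⟩
    obtain ⟨q, hq⟩ := (C v).1
    have c0 := mul_ne_zero (im v vz q hq) (n0 (f q)).ne'
    have sq : ∀ p ∈ arc v, ((p / o).im * n (f p)) ^ 2 = r v ^ 2 := fun p hp => by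
      rw [← hr v p hp, ← sq_abs, abs_mul, abs_of_pos (n0 _), hn, ← Real.norm_eq_abs, ← norm_smul,
        fp v vz p hp]
    refine ⟨_, c0, fun _ => (C v).2.eq_of_sq_eq (g := fun _ => _) (.mul (by fun_prop)
      ((by fun_prop : Continuous n).comp_continuousOn (fc v vz))) continuousOn_const
      (fun p hp => (sq p hp).trans (sq q hq).symm) (fun _ => c0) hq rfl⟩
  choose h h0 hh using this
  set J := fun v => if v = z then ∅ else f '' arc v with hJ
  set e := fun x : ℝ => (n x)⁻¹ • (o * (x + I)) with he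
  have K : ∀ v, (fun x => h v • e x) '' J v = if v = z then ∅ else arc v := fun v => by
    simp only [hJ]
    split_ifs with vz
    · simp
    rw [image_image]
    refine (image_congr fun p hp => ?_).trans (image_id _)
    rw [← hh v vz p hp, he, smul_smul, mul_inv_cancel_right₀ (n0 _).ne', fp v vz p hp, id]
  refine ⟨J, h, ⟨fun v => ?_, fun u v x a b c => by_contra fun d => ?_, fun u v => ?_⟩, if_pos rfl⟩
  · simp only [hJ]
    split_ifs with vz
    exacts [ordConnected_empty, ((C v).2.image _ (fc v vz)).ordConnected]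
  · have a := (K u).le ⟨x, a, rfl⟩
    have b := (K v).le ⟨x, b, rfl⟩
    split_ifs at a b <;> try contradiction
    exact disjoint_left.1 (D d) a (c ▸ b)
  rw [← tr (e := e) h0 fun _ _ x _ y _ s t a b => ?_]
  · by_cases uz : u = z
    · simp only [Sees, K]; simp [uz, hz]
    by_cases vz : v = z
    · simp only [Sees, K]; simp [vz, hz, G.adj_comm u]
    simp only [H, Sees, K, if_neg uz, if_neg vz]
    refine and_congr_right fun _ => exists_congr fun p => and_congr_right fun hp =>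
      exists_congr fun q => and_congr_right fun hq => and_congr_right fun c => ?_
    congr! 6 with w
    split_ifs with wz
    · refine iff_of_false ?_ (by simp)
      rintro ⟨y, ⟨α, β, -, -, -, rfl⟩, b⟩
      obtain ⟨d, hd⟩ := (collinear_iff_of_mem (p₀ := 0) (by simp)).1 c
      obtain ⟨s, rfl⟩ := hd p (by simp)
      obtain ⟨t, rfl⟩ := hd q (by simp)
      simp only [vadd_eq_add, add_zero, smul_smul, ← add_smul] at b hp
      refine iso _ (wz ▸ b) u uz (s / (α * s + β * t)) ?_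
      rwa [smul_smul, div_mul_cancel₀]
      exact fun e => p0 _ _ b (by simp [e])
    · rfl
  simp only [he, smul_smul, ← mul_smul_comm] at a
  have a := mul_left_cancel₀ o0 a
  have c := congrArg re a
  have d := congrArg Complex.im a
  simp only [smul_re, smul_im, add_re, add_im, ofReal_re, ofReal_im, I_re, I_im, smul_eq_mul,
    add_zero, zero_add, mul_one] at c d
  obtain rfl : x = y := mul_left_cancel₀ (mul_ne_zero b (inv_ne_zero (n0 x).ne')) (d ▸ c)
  exact ⟨rfl, mul_right_cancel₀ (inv_ne_zero (n0 x).ne') d⟩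

lemma mk [Finite V] (a b h : V → ℝ) (L : ℝ) (k : ℕ) (H : ∀ v, 0 ≤ a v ∧ a v < b v ∧ b v ≤ L ∧ 0 < h v)
    (D : ∀ u v x, x ∈ Icc (a u) (b u) → x ∈ Icc (a v) (b v) → h u = h v → u = v) :
    ∃ G : SimpleGraph V, Vis ClosedArc k G ∧ ∀ u v, G.Adj u v ↔ BS (fun v => Icc (a v) (b v)) h k u v := by
  have hI : ∀ u v, ∀ x ∈ Icc (a u) (b u), ∀ y ∈ Icc (a v) (b v), ∀ s t : ℝ,
      s • exp ((x * L⁻¹ : ℝ) * I) = t • exp ((y * L⁻¹ : ℝ) * I) → s ≠ 0 → x = y ∧ s = t := by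
    intro u v x hx y hy s t e s0
    obtain ⟨a1, a2, a3, -⟩ := H u
    obtain ⟨b1, -, b3, -⟩ := H v
    have L0 : 0 < L := by linarith
    have c := congrArg re e
    have d := congrArg im e
    simp only [smul_re, smul_im, exp_ofReal_mul_I_re, exp_ofReal_mul_I_im, smul_eq_mul] at c d
    have : s * Real.sin (x * L⁻¹ - y * L⁻¹) = 0 := by
      rw [Real.sin_sub]
      linear_combination Real.cos (y * L⁻¹) * d - Real.sin (y * L⁻¹) * c
    have p := Real.pi_gt_three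
    have := (Real.sin_eq_zero_iff_of_lt_of_lt (by
      rw [← sub_mul, ← div_eq_mul_inv, lt_div_iff₀ L0]; nlinarith [hx.1, hy.2]) (by
      rw [← sub_mul, ← div_eq_mul_inv, div_lt_iff₀ L0]; nlinarith [hx.2, hy.1])).1
      ((mul_eq_zero.1 this).resolve_left s0)
    obtain rfl : x = y := mul_right_cancel₀ (inv_ne_zero L0.ne') (sub_eq_zero.1 this)
    exact ⟨rfl, smul_left_injective ℝ (exp_ne_zero _) e⟩
  have sy : ∀ u v, BS (fun v => Icc (a v) (b v)) h k u v → BS (fun v => Icc (a v) (b v)) h k v u :=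
    fun u v ⟨c, x, d, e, f⟩ => ⟨c.symm, x, e, d, by
      convert f using 2; ext; simp only [Bt, mem_ofPred_eq, uIcc_comm (h u)]; tauto⟩
  refine ⟨⟨_, ⟨sy⟩, ⟨fun _ e => e.1 rfl⟩⟩, ⟨_, fun v => ?_, fun u v e => disjoint_left.2 ?_,
    fun u v => (tr (fun v => (H v).2.2.2.ne') hI k u v).symm⟩, fun _ _ => .rfl⟩
  · obtain ⟨a1, a2, a3, a4⟩ := H v
    have L0 : 0 < L := by linarith
    refine ⟨_, a4, a v * L⁻¹, b v * L⁻¹, by gcongr, ?_, ?_⟩
    · have : b v * L⁻¹ ≤ 1 := by rwa [← div_eq_mul_inv, div_le_one L0]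
      have : 0 ≤ a v * L⁻¹ := by positivity
      linarith [Real.pi_gt_three]
    · rw [← image_mul_right_Icc' _ _ (inv_pos.2 L0), image_image]
      simp [circleMap]
  · rintro _ ⟨x, hx, rfl⟩ ⟨y, hy, c⟩
    obtain ⟨rfl, c'⟩ := hI _ _ _ hy _ hx _ _ c (H v).2.2.2.ne'
    exact e (D _ _ _ hx hy c'.symm)

lemma up {i j : ℕ} (ij : j < i) : ∃ (V : Type) (_ : Finite V) (G : SimpleGraph V),
    Vis ClosedArc j G ∧ ¬ Vis AnyArc i G := by
  obtain ⟨G, hG, A⟩ := mk (V := Fin 5 ⊕ Fin j) (Sum.elim ![0, 0, 0, 0, 3] fun _ => 0)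
    (Sum.elim ![2, 1, 1, 2, 4] fun _ => 1)
    (Sum.elim ![1, 2, j + 3, j + 4, 1] fun p => 3 + (p : ℕ)) 4 j (by
      have : (0 : ℝ) ≤ j := j.cast_nonneg
      rintro (p | p)
      · fin_cases p <;> simp <;> norm_num <;> linarith
      · simp; positivity) (by
      have : (0 : ℝ) ≤ j := j.cast_nonneg
      have : ∀ p : Fin j, (0 : ℝ) ≤ (p : ℕ) ∧ ((p : ℕ) : ℝ) < j := fun p =>
        ⟨Nat.cast_nonneg _, Nat.cast_lt.2 p.2⟩
      rintro (p | p) (q | q) x
      · fin_cases p <;> fin_cases q <;> simp <;> intros <;> linarith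
      · have := this q
        fin_cases p <;> simp <;> intros <;> linarith
      · have := this p
        fin_cases q <;> simp <;> intros <;> linarith
      · simp [Fin.ext_iff])
  refine ⟨_, inferInstance, G, hG, fun H => ?_⟩
  have j0 : (0 : ℝ) ≤ j := j.cast_nonneg
  have jp : ∀ p : Fin j, (0 : ℝ) ≤ (p : ℕ) ∧ ((p : ℕ) : ℝ) < j := fun p =>
    ⟨Nat.cast_nonneg _, Nat.cast_lt.2 p.2⟩
  have R : (range (Sum.inr : Fin j → Fin 5 ⊕ Fin j)).ncard = j := by
    simp [ncard_range_of_injective Sum.inr_injective]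
  obtain ⟨J, h, B, Jz⟩ := cut H (.inl 4) fun v e => by
    obtain ⟨a, x, b, c, -⟩ := (A _ _).1 e
    obtain p | p := v
    · fin_cases p <;> simp at a b c <;> linarith
    · simp at b c; linarith
  have Y : ∀ p ∈ [((0 : Fin 5), (1 : Fin 5), (0 : ℝ)), (1, 2, 0), (2, 3, 0), (3, 0, 2)],
      ∃ x, x ∈ J (.inl p.1) ∧ x ∈ J (.inl p.2.1) := fun p hp => by
    obtain ⟨-, x, a, b, -⟩ := (B.adj (.inl p.1) (.inl p.2.1)).1 ((A _ _).2 (by
      refine ⟨?_, p.2.2, ?_, ?_, (ncard_le_ncard ?_).trans R.le⟩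
      iterate 3 fin_cases hp <;> simp
      rintro (w | w) ⟨a, b, c, d⟩
      · fin_cases hp <;> fin_cases w <;> simp [mem_uIcc] at a b c d <;>
          (try obtain d | d := d) <;> linarith
      · simp))
    exact ⟨x, a, b⟩
  have N : ∀ p ∈ [((0 : Fin 5), (2 : Fin 5), (1 : Fin 5)), (1, 3, 2)],
      ¬ G.Adj (.inl p.1) (.inl p.2.1) := fun p hp e => by
    obtain ⟨-, x, a, b, c⟩ := (A _ _).1 e
    have := (ncard_le_ncard (s := insert (.inl p.2.2) (range Sum.inr)) ?_).trans c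
    · rw [ncard_insert_of_notMem (by simp), R] at this
      omega
    rintro _ (rfl | ⟨w, rfl⟩)
    · fin_cases hp <;> simp [Bt, mem_uIcc] at a b ⊢ <;> grind
    · have := jp w
      fin_cases hp <;> simp [Bt, mem_uIcc] at a b ⊢ <;> grind
  have F : ∀ u v w : Fin 5, u ≠ v → [u, v, w, 4].Nodup → ¬ G.Adj (.inl u) (.inl v) → ∀ x,
      x ∈ J (.inl u) → x ∈ J (.inl v) → .inl w ∈ Bt J h x (.inl u) (.inl v) :=
    fun u v w uv nd a x b c => by_contra fun d => a ((B.adj _ _).2 ⟨by simpa, x, b, c, by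
      refine (ncard_le_ncard (t := Sum.inl '' {u, v, w, 4}ᶜ ∪ range Sum.inr) ?_).trans
        ((ncard_union_le _ _).trans ?_)
      · rintro (y | y) e
        · refine .inl ⟨y, ?_, rfl⟩
          rintro (rfl | rfl | rfl | rfl)
          exacts [e.1 rfl, e.2.1 rfl, d e, (Jz ▸ e.2.2.1 :)]
        · simp
      · rw [R, ncard_image_of_injective _ Sum.inl_injective, ncard_compl, Nat.card_fin]
        simp only [List.nodup_cons, List.mem_cons] at nd
        rw [ncard_insert_of_notMem (by grind), ncard_insert_of_notMem (by grind),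
          ncard_pair (by grind)]
        omega⟩)
  have n1 := N (0, 2, 1) (by simp)
  have n2 := N (1, 3, 2) (by simp)
  have Z : ∀ x, ¬ (x ∈ J (.inl 0) ∧ x ∈ J (.inl 2) ∧ x ∈ J (.inl 1) ∧ x ∈ J (.inl 3)) := by
    rintro x ⟨a, b, c, d⟩
    have a1 := (F 0 2 1 (by simp) (by decide) n1 x a b).2.2.2
    have a2 := (F 0 2 3 (by simp) (by decide) n1 x a b).2.2.2
    have a3 := (F 1 3 0 (by simp) (by decide) n2 x c d).2.2.2
    have a4 := (F 1 3 2 (by simp) (by decide) n2 x c d).2.2.2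
    have b1 := mt (B.ne _ _ x a c) (by simp)
    have b2 := mt (B.ne _ _ x a d) (by simp)
    rw [mem_uIcc] at a1 a2 a3 a4
    grind
  have Z1 : ∀ x ∈ J (.inl 0), x ∉ J (.inl 2) := fun x a b => Z x ⟨a, b,
    (F 0 2 1 (by simp) (by decide) n1 x a b).2.2.1, (F 0 2 3 (by simp) (by decide) n1 x a b).2.2.1⟩
  have Z2 : ∀ x ∈ J (.inl 1), x ∉ J (.inl 3) := fun x a b => Z x ⟨
    (F 1 3 0 (by simp) (by decide) n2 x a b).2.2.1, (F 1 3 2 (by simp) (by decide) n2 x a b).2.2.1,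
    a, b⟩
  obtain ⟨x1, a1, b1⟩ := Y (0, 1, 0) (by simp)
  obtain ⟨x2, b2, c2⟩ := Y (1, 2, 0) (by simp)
  obtain ⟨x3, c3, d3⟩ := Y (2, 3, 0) (by simp)
  obtain ⟨x4, d4, a4⟩ := Y (3, 0, 2) (by simp)
  have p1 := fun e => Z1 x2 ((B.oc _).uIcc_subset a1 a4 e) c2
  have p2 := fun e => Z1 x3 ((B.oc _).uIcc_subset a1 a4 e) c3
  have p3 := fun e => Z1 x1 a1 ((B.oc _).uIcc_subset c2 c3 e)
  have p4 := fun e => Z2 x3 ((B.oc _).uIcc_subset b1 b2 e) d3
  have p5 := fun e => Z2 x4 ((B.oc _).uIcc_subset b1 b2 e) d4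
  have p6 := fun e => Z2 x1 b1 ((B.oc _).uIcc_subset d3 d4 e)
  rw [mem_uIcc] at p1 p2 p3 p4 p5 p6
  grind

lemma down {i j : ℕ} (ij : i < j) : ∃ (V : Type) (_ : Finite V) (G : SimpleGraph V),
    Vis ClosedArc j G ∧ ¬ Vis AnyArc i G := by
  classical
  set W := Bool × Fin (j + 1)
  set t := Fintype.card ((W × Bool) × (W → Bool)) + 1 with ht
  have jp : ∀ {n} (p : Fin n), (0 : ℝ) ≤ (p : ℕ) ∧ ((p : ℕ) : ℝ) + 1 ≤ n := fun p =>
    ⟨Nat.cast_nonneg _, by exact_mod_cast p.2⟩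
  have jq : ∀ p : Fin (j + 1), (0 : ℝ) ≤ (p : ℕ) ∧ ((p : ℕ) : ℝ) ≤ j := fun p =>
    ⟨Nat.cast_nonneg _, by exact_mod_cast p.is_le⟩
  have t0 : (0 : ℝ) < t := by positivity
  have ss : ∀ (p q : Fin t) (x : ℝ), (p : ℕ) ≤ x → x ≤ (p : ℕ) + 2⁻¹ → (q : ℕ) ≤ x →
      x ≤ (q : ℕ) + 2⁻¹ → p = q := fun p q x a b c d => by
    have e : ((p : ℕ) : ℝ) < (q : ℕ) + 1 := by linarith
    have f : ((q : ℕ) : ℝ) < (p : ℕ) + 1 := by linarith
    norm_cast at e f
    omega
  obtain ⟨G, hG, A⟩ := mk (V := W ⊕ Option (Fin t)) (Sum.elim 0 (·.elim (t + 1) (·.val)))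
    (Sum.elim (fun _ => t) (·.elim (t + 2) (·.val + 2⁻¹)))
    (Sum.elim (fun w => if w.1 then j + 3 + w.2.val else w.2.val + 1) fun _ => j + 2) (t + 2) j (by
      have : (0 : ℝ) ≤ j := j.cast_nonneg
      rintro (⟨_ | _, p⟩ | _ | p) <;> simp <;> (try have := jp p) <;> constructor <;> linarith) (by
      rintro (⟨_ | _, p⟩ | _ | p) (⟨_ | _, q⟩ | _ | q) x <;> simp [Fin.ext_iff] <;> intros <;>
        (try have := jp p) <;> (try have := jp q) <;> (try have := jq p) <;> (try have := jq q) <;>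
        first | linarith | exact Prod.ext rfl (Fin.ext ‹_›) |
          exact congrArg _ (ss p q x ‹_› ‹_› ‹_› ‹_›))
  refine ⟨_, inferInstance, G, hG, fun H => ?_⟩
  obtain ⟨J, h, B, Jz⟩ := cut H (.inr none) fun v e => by
    obtain ⟨a, x, b, c, -⟩ := (A _ _).1 e
    obtain p | _ | p := v <;> simp at a b c
    · linarith
    · linarith [jp p]
  have Y : ∀ s w, G.Adj (.inr (some s)) (.inl w) := fun s w => (A _ _).2 (by
    refine ⟨by simp, s.val, by simp, by simp, (ncard_le_ncard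
      (t := (fun q => .inl (w.1, q)) '' {w.2}ᶜ) ?_).trans ((ncard_image_le).trans ?_)⟩
    · rintro (⟨u, q⟩ | _ | q) ⟨a, b, c, d⟩
      · obtain ⟨v, p⟩ := w
        have := jq p
        have := jq q
        obtain rfl : u = v := by
          obtain _ | _ := u <;> obtain _ | _ := v <;> simp [mem_uIcc] at d ⊢ <;> grind
        exact ⟨q, fun e => b (by rw [e]), rfl⟩
      · simp at c; linarith [jp s]
      · exact (a (by rw [ss q s s.val c.1 c.2 le_rfl (by simp)])).elim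
    · rw [ncard_compl]; simp)
  have E : ∀ s, ∃ e : W × Bool, (if e.2 then sSup (J (.inl e.1)) else sInf (J (.inl e.1))) ∈
      J (.inr (some s)) := fun s => by
    by_contra! c
    have S : ∀ w, J (.inr (some s)) ⊆ J (.inl w) := fun w y hy => by_contra fun d => by
      obtain ⟨-, x, a, b, -⟩ := (B.adj _ _).1 (Y s w)
      obtain e | e := le_total x y
      · have : y ∈ upperBounds (J (.inl w)) := fun q hq => le_of_not_gt fun f =>
          d ((B.oc _).out b hq ⟨e, f.le⟩)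
        exact c (w, true) ((B.oc _).out a hy ⟨le_csSup ⟨y, this⟩ b, csSup_le ⟨x, b⟩ this⟩)
      · have : y ∈ lowerBounds (J (.inl w)) := fun q hq => le_of_not_gt fun f =>
          d ((B.oc _).out hq b ⟨f.le, e⟩)
        exact c (w, false) ((B.oc _).out hy a ⟨le_csInf ⟨x, b⟩ this, csInf_le ⟨y, this⟩ b⟩)
    obtain ⟨p, hp⟩ := Finite.exists_max fun w : W => h (.inl w)
    obtain ⟨q, hq⟩ := Finite.exists_min fun w : W => h (.inl w)
    obtain ⟨-, x, a, -, b⟩ := (B.adj _ _).1 (Y s p)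
    obtain ⟨-, y, c, -, d⟩ := (B.adj _ _).1 (Y s q)
    have := (ncard_le_ncard (s := range Sum.inl) (t := insert (.inl p) (insert (.inl q)
      (Bt J h x (.inr (some s)) (.inl p) ∪ Bt J h y (.inr (some s)) (.inl q)))) ?_).trans
      ((ncard_insert_le _ _).trans (add_le_add_left ((ncard_insert_le _ _).trans
        (add_le_add_left ((ncard_union_le _ _).trans (add_le_add b d)) 1)) 1))
    · rw [ncard_range_of_injective Sum.inl_injective] at this
      simp [W] at this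
      omega
    rintro _ ⟨w, rfl⟩
    refine or_iff_not_imp_left.2 fun e => or_iff_not_imp_left.2 fun f => ?_
    obtain g | g := le_total (h (.inr (some s))) (h (.inl w))
    · exact .inl ⟨by simp, e, S w a, mem_uIcc.2 (.inl ⟨g, hp w⟩)⟩
    · exact .inr ⟨by simp, f, S w c, mem_uIcc.2 (.inr ⟨hq w, g⟩)⟩
  choose e he using E
  obtain ⟨s, s', ne, a⟩ := Fintype.exists_ne_map_eq_of_card_lt (fun s : Fin t =>
    (e s, fun w : W => decide (h (.inl w) < h (.inr (some s))))) (by simp [ht])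
  obtain ⟨a, b⟩ := Prod.ext_iff.1 a
  have c := he s
  have d := he s'
  simp only at a
  rw [← a] at d
  generalize (if (e s).2 then sSup (J (.inl (e s).1)) else sInf (J (.inl (e s).1))) = x at c d
  obtain ⟨w, y, ⟨f, (rfl : y = h w)⟩, g, k, l⟩ := near {y | x ∈ J y.1 ∧ y.2 = h y.1}
    ((finite_range fun v => (v, h v)).subset fun y e => ⟨y.1, Prod.ext rfl e.2.symm⟩)
    (fun w w' t a b => B.ne _ _ x a.1 b.1 (a.2.symm.trans b.2)) (h (.inr (some s)))
    (u := .inr (some s)) (v := .inr (some s')) (t := h (.inr (some s'))) (by simpa using ne.symm)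
    ⟨d, rfl⟩
  have m := (B.adj _ _).2 ⟨g.symm, x, c, f, ((ncard_eq_zero (toFinite _)).2
    (eq_empty_of_forall_notMem fun y e => (l y _ ⟨e.2.2.1, rfl⟩ e.2.2.2).elim e.1 e.2.1)).trans_le
      i.zero_le⟩
  obtain w | _ | w := w
  · have b := congrFun b w
    have := mt (B.ne _ _ x f c) (by simp)
    have := mt (B.ne _ _ x f d) (by simp)
    simp only [decide_eq_decide, mem_uIcc] at b k
    grind
  · exact (Jz ▸ f :)
  · obtain ⟨a, y, b, c, -⟩ := (A _ _).1 m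
    simp at a b c
    exact a (ss _ _ y b.1 b.2 c.1 c.2)

theorem result (i j : ℕ) (h : i ≠ j) : ∃ (V : Type) (_ : Finite V) (G : SimpleGraph V),
    Vis ClosedArc j G ∧ ¬ Vis ClosedArc i G ∧ ¬ Vis AnyArc i G := by
  obtain ⟨V, _, G, a, b⟩ := h.lt_or_gt.elim down up
  refine ⟨V, ‹_›, G, a, fun ⟨arc, c, d⟩ => b ⟨arc, fun v => ?_, d⟩, b⟩
  obtain ⟨r, r0, a, b, ab, -, e⟩ := c v
  rw [e]
  exact ⟨(isConnected_Icc ab.le).image _ (continuous_circleMap _ _).continuousOn, r, r0,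
    image_subset_iff.2 fun x _ => circleMap_mem_sphere _ r0.le _⟩

end Pool.Agent.Results.MP_73fdb2_co.No
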